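import Pool.Agent.H.MP_7b4a29_c.FinD

/-!
# Circle against circle with a segment, closed annulus, three-sphere

`B` is the infinite reduced free power of `C([0,1])`. For `Z` the union of a circle and a segment in
the plane with exactly one common point, a closed annulus in the plane, or the three-sphere, the
reduced free products of `C(circle)` and `B` and of `C(Z)` and `B` are isomorphic. The definitions are
in `Pool/Agent/H/MP_47f0a1_an/Defs.lean` (namespace `H47`), `Pool/Agent/H/MP_7b4a29_an/Defs.lean`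
(namespace `H7b`) and `Pool/Agent/H/MP_7b4a29_c/Defs.lean` (namespace `H7c`).
-/

open MeasureTheory

namespace Pool.Agent.Results.MP_7b4a29_an.FullAnswer

open H47 H7b H7c

universe u v w

theorem result :
    (∃ (B : Type) (_ : CStarAlgebra B) (τ : B →ₗ[ℂ] ℂ)
      (ι : ℕ → C(unitInterval, ℂ) →⋆ₐ[ℂ] B), FreeInf B τ ι) ∧
    (∀ (z₀ A E c : ℂ) (R : ℝ), 0 < R → A ≠ E → Metric.sphere z₀ R ∩ segment ℝ A E = {c} →
      SameProd.{u, v, w} (nrm (Measure.hausdorffMeasure (1 : ℝ)) circ)
        (nrm (Measure.hausdorffMeasure (1 : ℝ)) (loll z₀ R A E))) ∧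
    (∀ (z₀ : ℂ) (r R : ℝ), 0 < r → r < R →
      SameProd.{u, v, w} (nrm (Measure.hausdorffMeasure (1 : ℝ)) circ)
        (nrm volume (annu z₀ r R))) ∧
    SameProd.{u, v, w} (nrm (Measure.hausdorffMeasure (1 : ℝ)) circ) sphm :=
  full

end Pool.Agent.Results.MP_7b4a29_an.FullAnswer
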